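import Pool.Agent.Helper28.MT.Goals3

/-!
# Project MT3 (MP_bb782b_co), packet MT3-SEL3: assembly by induction
-/

set_option autoImplicit false

namespace Pool.Agent.Helper14.MT3

open Finset
open Pool.Agent.Helper55.Rota
open Pool.Agent.Helper28.MT
open Pool.Agent.Helper28.MT3

theorem mt3_sel3 : G_LAB3 → G_CARD → G_X → G_STEP3 → G_POTB3 → G_SEL3 := by
  classical
  intro hLAB hCARD hX hSTEP hPOT α _ _ R n k h s b t hk hn hkh hh2 hs hsh hW hr hb ht
  have hk0 : 0 < k := by omega
  have hcard : Fintype.card α = n * k := by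
    have h1 : (univ : Finset α).card = ∑ i : Fin n, (univ.filter (fun x => b x = i)).card :=
      Finset.card_eq_sum_card_fiberwise (fun x _ => mem_univ (b x))
    rw [← Finset.card_univ, h1, Finset.sum_congr rfl (fun i _ => hb i)]
    simp
  have hloop : ∀ x, 0 < R.r {x} := by
    intro x
    have h1 := ht (t x) {x} (fun y hy => by rw [mem_singleton.1 hy])
    rw [card_singleton] at h1
    omega
  rcases Nat.eq_zero_or_pos n with hn0 | hn0
  · subst hn0
    have hr0 : R.r ∅ = 0 := by
      have h1 := R.mono (Finset.empty_subset (univ : Finset α))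
      omega
    refine ⟨fun _ => ∅, fun i _ => ⟨fun a => a.elim0, hr0⟩, ?_⟩
    intro i _ i' _ _
    exact Finset.disjoint_empty_left _
  have hidx : ∀ j : Fin k, ∃ g : α → Fin n, ∀ x x', t x = j → t x' = j → g x = g x' → x = x' := by
    intro j
    have h1 : (univ.filter (fun x => t x = j)).card ≤ n := by
      have h2 := ht j (univ.filter (fun x => t x = j)) (fun x hx => (mem_filter.1 hx).2)
      have h3 := R.mono (Finset.subset_univ (univ.filter (fun x => t x = j)))
      omega
    have h2 : Fintype.card {x // t x = j} ≤ Fintype.card (Fin n) := by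
      rw [Fintype.card_subtype, Fintype.card_fin]
      exact h1
    obtain ⟨e⟩ := Function.Embedding.nonempty_of_card_le h2
    refine ⟨fun x => if hx : t x = j then e ⟨x, hx⟩ else ⟨0, hn0⟩, ?_⟩
    intro x x' hx hx' he
    simp only [hx, hx', dif_pos] at he
    have h3 := e.injective he
    exact congrArg Subtype.val h3
  choose g hg using hidx
  have ha : ∀ x x', t x = t x' → g (t x) x = g (t x') x' → x = x' := by
    intro x x' h1 h2
    refine hg (t x) x x' rfl h1.symm ?_
    rw [h2, h1]
  have hset : Setup R n k b t (fun x => g (t x) x) := ⟨hr, hloop, hb, ht, ha⟩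
  have h2s : 2 ^ s ≤ k := by
    have h1 : 1 * 2 ^ s ≤ 2 ^ 70 * 2 ^ s := Nat.mul_le_mul_right _ (by norm_num)
    omega
  have hs70 : s + 70 ≤ h := by
    have h1 : 2 ^ (s + 70) ≤ 2 ^ h := by
      rw [pow_add, mul_comm]
      exact hW.trans hkh
    exact (Nat.pow_le_pow_iff_right (by norm_num)).1 h1
  obtain ⟨f, hf1, hf2⟩ := hLAB α n k h s (Vf R n k h b t (fun x => g (t x) x)) (Xfam R b t) hk hn
    hkh hh2 hs h2s hcard
    (fun e he => hCARD α R n k h b t (fun x => g (t x) x) e hk hn hkh hh2 hcard he)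
  have hLab : Lab3 R n k h s b t (fun x => g (t x) x) f := by
    refine ⟨hf1, ?_⟩
    intro I F hF hlt
    obtain ⟨h1, j, E, Q, hXe, hEQ⟩ := hX α R n k b t hk0 hb ht I F hF hlt
    have h2 : k ≤ (blkU b I \ F).card := by
      have h3 : k * 1 ≤ k * (I.card - R.r F) := Nat.mul_le_mul_left k (by omega)
      omega
    have h3 := hf2 I j E Q (by rw [← hXe]; exact h2) (by rw [← hXe]; exact hEQ)
    rw [← hXe] at h3
    exact ⟨h1, h3⟩
  have hind : ∀ j ≤ 2 ^ s, ∃ T : ℕ → Finset α, Good3 R n k s b f T j := by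
    intro j
    induction j with
    | zero =>
      intro _
      exact ⟨fun _ => ∅, fun i hi => absurd hi (Nat.not_lt_zero i),
        fun i hi => absurd hi (Nat.not_lt_zero i),
        (hPOT k s _ _ 0 hs hW (Nat.zero_le _)).1⟩
    | succ j ih =>
      intro hj
      obtain ⟨T, hT⟩ := ih (by omega)
      exact hSTEP α R n k h s b t (fun x => g (t x) x) f T j hk hn0 hn hkh hh2 hs hs70 hsh hW
        (by omega) hset hLab hT
  obtain ⟨T, hT1, hT2, _⟩ := hind (2 ^ s) le_rfl
  exact ⟨T, fun i hi => ⟨(hT1 i hi).2.1, (hT1 i hi).2.2⟩, hT2⟩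

end Pool.Agent.Helper14.MT3
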