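import Pool.Agent.Helper28.MT.Goals3
import Pool.Agent.Helper7.MT.TOP

/-!
# Project MT3 (MP_bb782b_co), packet MT3-TOP3: transfer to Mathlib matroids
-/

set_option autoImplicit false

namespace Pool.Agent.Helper14.MT3

open Finset
open Pool.Agent.Helper55.Rota
open Pool.Agent.Helper10.SPL
open Pool.Agent.Helper28.MT
open Pool.Agent.Helper28.MT3
open Pool.Agent.Helper7.MT (restr one card_trans)

theorem mt3_top3 : G_SEL3 → G_NUM3 → G_TOP3 := by
  classical
  intro hS hN
  obtain ⟨c, hc, hnum⟩ := hN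
  refine ⟨c, hc, ?_⟩
  intro α M n k hk2 hnk hM hBM P hPc hPd hPu
  obtain ⟨B, hB1, hB2, hB3⟩ := hBM
  rcases Nat.eq_zero_or_pos n with hn | hn
  · subst hn
    obtain ⟨m, hm⟩ := exists_nat_ge (c * (k : ℝ))
    exact ⟨m, fun _ => ∅, hm, fun j => base_empty M hM B hB1 ⟨0, by omega⟩,
      fun j i => absurd i.2 (by omega), fun j j' _ => disjoint_bot_left⟩
  obtain ⟨E, hE1, hE2⟩ := finE M hM B hB1 hB2 hB3
  obtain ⟨cb, hblt, hb⟩ := label (E : Set α) P hPd (by rw [hPu, hE1])
  obtain ⟨ct, htlt, ht⟩ := label (E : Set α) B hB2 (by rw [hB3, hE1])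
  have hPu' : (⋃ i, P i) = (E : Set α) := by rw [hPu, hE1]
  let β : Type := {x // x ∈ E}
  let R : RankFn β := restr E (ofM M hM)
  let b : β → Fin n := fun x => ⟨cb x.1, hblt x.1 (Finset.mem_coe.mpr x.2)⟩
  let t : β → Fin k := fun x => ⟨ct x.1, htlt x.1 (Finset.mem_coe.mpr x.2)⟩
  let φ : β ↪ α := Function.Embedding.subtype _
  have hRr : ∀ Y : Finset β, R.r Y = (ofM M hM).r (Y.map φ) := fun Y => rfl
  have hbP : ∀ (x : β) (i : Fin n), b x = i ↔ (x : α) ∈ P i := by
    intro x i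
    rw [← hb x.1 (Finset.mem_coe.mpr x.2) i]
    exact Fin.ext_iff
  have htB : ∀ (x : β) (i : Fin k), t x = i ↔ (x : α) ∈ B i := by
    intro x i
    rw [← ht x.1 (Finset.mem_coe.mpr x.2) i]
    exact Fin.ext_iff
  have hRu : R.r univ = n := by
    have h1 : (univ : Finset β).map φ = E := by
      ext x
      rw [mem_map]
      constructor
      · rintro ⟨y, -, rfl⟩; exact y.2
      · intro hx; exact ⟨⟨x, hx⟩, mem_univ _, rfl⟩
    rw [hRr, h1]
    have h2 : (((ofM M hM).r E : ℕ) : ℕ∞) = (n : ℕ∞) := by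
      rw [ofM_coe, hE1, M.eRk_ground, hM]
    exact_mod_cast h2
  have hsub : ∀ (T : Finset β) (i : Fin n),
      ((T.map φ : Finset α) : Set α) ∩ P i = ((T.filter (fun x => b x = i)).map φ : Finset α) := by
    intro T i
    ext x
    rw [Set.mem_inter_iff, Finset.mem_coe, Finset.mem_coe, mem_map, mem_map]
    constructor
    · rintro ⟨⟨y, hy, rfl⟩, h⟩
      exact ⟨y, mem_filter.mpr ⟨hy, (hbP y i).mpr h⟩, rfl⟩
    · rintro ⟨y, hy, rfl⟩
      rw [mem_filter] at hy
      exact ⟨⟨y, hy.1, rfl⟩, (hbP y i).mp hy.2⟩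
  have hbc : ∀ i, (univ.filter (fun x => b x = i)).card = k := by
    intro i
    have h1 := hsub univ i
    have h2 : ((univ.map φ : Finset α) : Set α) ∩ P i = P i := by
      rw [Set.inter_eq_right]
      intro x hx
      have hxE : x ∈ E := by
        rw [← Finset.mem_coe, ← hPu']
        exact Set.mem_iUnion_of_mem i hx
      rw [Finset.mem_coe, mem_map]
      exact ⟨⟨x, hxE⟩, mem_univ _, rfl⟩
    rw [h2] at h1
    have h3 := hPc i
    rw [h1, Set.encard_coe_eq_coe_finsetCard, Finset.card_map] at h3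
    exact_mod_cast h3
  have htc : ∀ (j : Fin k) (Y : Finset β), (∀ x ∈ Y, t x = j) → Y.card ≤ R.r Y := by
    intro j Y hY
    have h1 : M.Indep ((Y.map φ : Finset α) : Set α) := by
      apply (hB1 j).indep.subset
      intro x hx
      rw [Finset.mem_coe, mem_map] at hx
      obtain ⟨y, hy, rfl⟩ := hx
      exact (htB y j).mp (hY y hy)
    rw [hRr, ← ofM_indep M hM h1, Finset.card_map]
  obtain ⟨h, s, hkh, hh2, hcs, hs⟩ := hnum k hk2
  have hfam : ∃ T : ℕ → Finset β, (∀ i < 2 ^ s, (∀ a, ((T i).filter (fun x => b x = a)).card = 1) ∧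
      R.r (T i) = n) ∧ ∀ i < 2 ^ s, ∀ i' < 2 ^ s, i ≠ i' → Disjoint (T i) (T i') := by
    rcases hs with hs | ⟨hs1, hs2, hs3⟩
    · obtain ⟨T, hT1, hT2⟩ := one R n k b t (by omega) hRu hbc htc
      refine ⟨fun _ => T, fun i _ => ⟨hT1, hT2⟩, ?_⟩
      intro i hi i' hi' hne
      rw [hs] at hi hi'
      exact absurd (show i = i' by omega) hne
    · exact hS β R n k h s b t hk2 hnk hkh hh2 hs1 hs2 hs3 hRu hbc htc
  obtain ⟨T, hT, hTd⟩ := hfam
  refine ⟨2 ^ s, fun j => ((T j).map φ : Finset α), hcs, ?_, ?_, ?_⟩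
  · intro j
    obtain ⟨h1, h2⟩ := hT j j.2
    refine ofM_base M hM ?_ ?_
    · rw [Finset.card_map]
      exact card_trans n b (T j) h1
    · rw [← hRr]; exact h2
  · intro j i
    show ((((T j).map φ : Finset α) : Set α) ∩ P i).encard = 1
    rw [hsub, Set.encard_coe_eq_coe_finsetCard, Finset.card_map, (hT j j.2).1 i]
    rfl
  · intro j j' hjj
    have h1 := hTd j j.2 j' j'.2 (fun h => hjj (Fin.ext h))
    show Disjoint (((T j).map φ : Finset α) : Set α) (((T j').map φ : Finset α) : Set α)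
    rw [Finset.disjoint_coe, Finset.disjoint_map]
    exact h1

end Pool.Agent.Helper14.MT3
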